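import Mathlib

/-!
# `BMO ↪ BMO_X` does not imply `BMO*_X ↪ BMO`

Let `F(t) = |⌊t⌋|` if the fractional part of `t` is smaller than `1/2` and `F(t) = 0` otherwise.
Every interval `I` has a subset of measure at least `|I| / 4` on which `F` is constant.  The same
holds for `f(x) = F(x_0)` and all cubes `Q`, with a constant `c_Q`, and `X_Q` is the weighted space
`L¹(Q, dx / (|Q| (1 + |f - c_Q|)))`.
-/

open MeasureTheory Set Filter Topology
open scoped ENNReal NNReal

namespace Pool.Agent.Results.MP_ea8870_an.StarEmbeddingFails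

/-- A cube in `ℝⁿ` with sides parallel to the axes. -/
structure Cube (n : ℕ) where
  /-- the corner with the smallest coordinates -/
  corner : Fin n → ℝ
  /-- the side length -/
  side : ℝ
  side_pos : 0 < side

/-- The set of points of the cube. -/
def Cube.set {n : ℕ} (Q : Cube n) : Set (Fin n → ℝ) :=
  Set.Icc Q.corner (fun i => Q.corner i + Q.side)

/-- A quasi-Banach function space over the cube `Q`, given by its quasi-norm, which is `∞` exactly
outside the space.  All conditions are for measurable functions on `Q`, up to null sets. -/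
structure QBFS {n : ℕ} (Q : Cube n) where
  /-- the quasi-norm -/
  qnorm : ((Fin n → ℝ) → ℝ) → ℝ≥0∞
  /-- order ideal and monotonicity, property (i) -/
  mono : ∀ f g : (Fin n → ℝ) → ℝ, AEMeasurable f (volume.restrict Q.set) →
    AEMeasurable g (volume.restrict Q.set) →
    (∀ᵐ x ∂(volume.restrict Q.set), |f x| ≤ |g x|) → qnorm f ≤ qnorm g
  /-- definiteness -/
  eq_zero : ∀ f : (Fin n → ℝ) → ℝ, AEMeasurable f (volume.restrict Q.set) →
    (qnorm f = 0 ↔ ∀ᵐ x ∂(volume.restrict Q.set), f x = 0)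
  /-- homogeneity -/
  smul : ∀ (c : ℝ) (f : (Fin n → ℝ) → ℝ), c ≠ 0 → AEMeasurable f (volume.restrict Q.set) →
    qnorm (fun x => c * f x) = ENNReal.ofReal |c| * qnorm f
  /-- quasi-triangle inequality -/
  add : ∃ K : ℝ≥0, ∀ f g : (Fin n → ℝ) → ℝ, AEMeasurable f (volume.restrict Q.set) →
    AEMeasurable g (volume.restrict Q.set) → qnorm (fun x => f x + g x) ≤ K * (qnorm f + qnorm g)
  /-- completeness -/
  complete : ∀ f : ℕ → (Fin n → ℝ) → ℝ, (∀ k, AEMeasurable (f k) (volume.restrict Q.set)) →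
    (∀ k, qnorm (f k) < ∞) →
    (∀ ε : ℝ≥0∞, 0 < ε → ∃ N : ℕ, ∀ k l : ℕ, N ≤ k → N ≤ l →
      qnorm (fun x => f k x - f l x) ≤ ε) →
    ∃ g : (Fin n → ℝ) → ℝ, AEMeasurable g (volume.restrict Q.set) ∧ qnorm g < ∞ ∧
      Tendsto (fun k => qnorm (fun x => f k x - g x)) atTop (𝓝 0)
  /-- property (ii): some function of the space is positive almost everywhere -/
  exists_pos : ∃ f : (Fin n → ℝ) → ℝ, AEMeasurable f (volume.restrict Q.set) ∧
    (∀ᵐ x ∂(volume.restrict Q.set), 0 < f x) ∧ qnorm f < ∞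
  /-- property (iii): the Fatou property -/
  fatou : ∀ f : ℕ → (Fin n → ℝ) → ℝ, (∀ k, AEMeasurable (f k) (volume.restrict Q.set)) →
    (∀ k, ∀ᵐ x ∂(volume.restrict Q.set), 0 ≤ f k x ∧ f k x ≤ f (k + 1) x) →
    (⨆ k, qnorm (f k)) < ∞ →
    ∃ g : (Fin n → ℝ) → ℝ, AEMeasurable g (volume.restrict Q.set) ∧
      (∀ᵐ x ∂(volume.restrict Q.set), Tendsto (fun k => f k x) atTop (𝓝 (g x))) ∧
      qnorm g = ⨆ k, qnorm (f k)

/-- The mean `⟨f⟩_Q`. -/
noncomputable def mean {n : ℕ} (Q : Cube n) (f : (Fin n → ℝ) → ℝ) : ℝ :=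
  (volume Q.set).toReal⁻¹ * ∫ x in Q.set, f x

/-- The classical norm of `BMO`: the supremum over all cubes of `|Q|⁻¹ ∫_Q |f - ⟨f⟩_Q|`. -/
noncomputable def bmoNorm {n : ℕ} (f : (Fin n → ℝ) → ℝ) : ℝ≥0∞ :=
  ⨆ Q : Cube n, (volume Q.set)⁻¹ * ∫⁻ x in Q.set, ENNReal.ofReal |f x - mean Q f|

/-- The norm of `BMO_X`: the supremum over all cubes of `‖f - ⟨f⟩_Q‖_{X_Q}`. -/
noncomputable def bmoXNorm {n : ℕ} (X : ∀ Q : Cube n, QBFS Q) (f : (Fin n → ℝ) → ℝ) : ℝ≥0∞ :=
  ⨆ Q : Cube n, (X Q).qnorm (fun x => f x - mean Q f)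

/-- The norm of `BMO*_X`: the supremum over all cubes of `inf_c ‖f - c‖_{X_Q}`. -/
noncomputable def bmoStarNorm {n : ℕ} (X : ∀ Q : Cube n, QBFS Q) (f : (Fin n → ℝ) → ℝ) : ℝ≥0∞ :=
  ⨆ Q : Cube n, ⨅ c : ℝ, (X Q).qnorm (fun x => f x - c)

/-- The family `X` is normalized: `‖χ_Q‖_{X_Q} ≃ 1`. -/
def Normalized {n : ℕ} (X : ∀ Q : Cube n, QBFS Q) : Prop :=
  ∃ c C : ℝ≥0, 0 < c ∧ ∀ Q : Cube n, (c : ℝ≥0∞) ≤ (X Q).qnorm (Q.set.indicator fun _ => 1) ∧
    (X Q).qnorm (Q.set.indicator fun _ => 1) ≤ C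

/-- `BMO ↪ BMO_X`. -/
def EmbedsInBMOX {n : ℕ} (X : ∀ Q : Cube n, QBFS Q) : Prop :=
  ∃ C : ℝ≥0, ∀ f : (Fin n → ℝ) → ℝ, LocallyIntegrable f volume → bmoNorm f < ∞ →
    bmoXNorm X f ≤ C * bmoNorm f

/-- `BMO*_X ↪ BMO`. -/
def StarEmbedsInBMO {n : ℕ} (X : ∀ Q : Cube n, QBFS Q) : Prop :=
  ∃ C : ℝ≥0, ∀ f : (Fin n → ℝ) → ℝ, AEMeasurable f volume → bmoStarNorm X f < ∞ →
    LocallyIntegrable f volume ∧ bmoNorm f ≤ C * bmoStarNorm X f

/-! ### weighted `L¹` spaces -/

theorem measurableSet_cube {n : ℕ} (Q : Cube n) : MeasurableSet Q.set := measurableSet_Icc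

theorem volume_cube {n : ℕ} (Q : Cube n) : volume Q.set = ENNReal.ofReal Q.side ^ n := by
  unfold Cube.set
  rw [Real.volume_Icc_pi]
  simp

theorem volume_cube_ne_top {n : ℕ} (Q : Cube n) : volume Q.set ≠ ∞ := by
  rw [volume_cube]; exact ENNReal.pow_ne_top ENNReal.ofReal_ne_top

theorem volume_cube_pos {n : ℕ} (Q : Cube n) : volume Q.set ≠ 0 := by
  rw [volume_cube]
  exact pow_ne_zero _ (by simpa using Q.side_pos)

theorem meas_mul {n : ℕ} {Q : Cube n} {w : (Fin n → ℝ) → ℝ≥0∞} (hw : Measurable w)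
    {f : (Fin n → ℝ) → ℝ} (hf : AEMeasurable f (volume.restrict Q.set)) :
    AEMeasurable (fun x => w x * ENNReal.ofReal |f x|) (volume.restrict Q.set) :=
  hw.aemeasurable.mul (ENNReal.measurable_ofReal.comp_aemeasurable hf.abs)

theorem eLpNorm_weighted {n : ℕ} {Q : Cube n} {w : (Fin n → ℝ) → ℝ≥0∞} (hw : Measurable w)
    {f : (Fin n → ℝ) → ℝ} (hf : AEMeasurable f (volume.restrict Q.set)) :
    eLpNorm f 1 ((volume.restrict Q.set).withDensity w) =
      ∫⁻ x in Q.set, w x * ENNReal.ofReal |f x| := by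
  rw [eLpNorm_one_eq_lintegral_enorm, lintegral_withDensity_eq_lintegral_mul₀' hw.aemeasurable]
  · refine lintegral_congr fun x => ?_
    rw [Pi.mul_apply, Real.enorm_eq_ofReal_abs]
  · exact (hf.mono_ac (withDensity_absolutelyContinuous _ _)).enorm

/-- The space `L¹(Q, w dx)`. -/
noncomputable def weighted {n : ℕ} (Q : Cube n) (w : (Fin n → ℝ) → ℝ≥0∞) (hw : Measurable w)
    (hw0 : ∀ x, w x ≠ 0) (hwi : ∫⁻ x in Q.set, w x < ∞) : QBFS Q where
  qnorm f := ∫⁻ x in Q.set, w x * ENNReal.ofReal |f x|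
  mono f g _ _ h := by
    refine lintegral_mono_ae ?_
    filter_upwards [h] with x hx
    exact mul_le_mul_right (ENNReal.ofReal_le_ofReal hx) _
  eq_zero f hf := by
    rw [lintegral_eq_zero_iff' (meas_mul hw hf)]
    constructor
    · intro h
      filter_upwards [h] with x hx
      rw [Pi.zero_apply, mul_eq_zero, ENNReal.ofReal_eq_zero] at hx
      rcases hx with hx | hx
      · exact absurd hx (hw0 x)
      · exact abs_nonpos_iff.1 hx
    · intro h
      filter_upwards [h] with x hx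
      simp [hx]
  smul c f _ _ := by
    rw [← lintegral_const_mul' _ _ ENNReal.ofReal_ne_top]
    refine lintegral_congr fun x => ?_
    rw [abs_mul, ENNReal.ofReal_mul (abs_nonneg _)]
    ring
  add := by
    refine ⟨1, fun f g hf hg => ?_⟩
    rw [ENNReal.coe_one, one_mul, ← lintegral_add_left' (meas_mul hw hf)]
    refine lintegral_mono fun x => ?_
    rw [← mul_add, ← ENNReal.ofReal_add (abs_nonneg _) (abs_nonneg _)]
    exact mul_le_mul_right (ENNReal.ofReal_le_ofReal (abs_add_le _ _)) _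
  complete f hf hfin hcau := by
    set μ : Measure (Fin n → ℝ) := (volume.restrict Q.set).withDensity w with hμ
    have hac : μ ≪ volume.restrict Q.set := withDensity_absolutelyContinuous _ _
    have hac' : volume.restrict Q.set ≪ μ :=
      withDensity_absolutelyContinuous' hw.aemeasurable (Eventually.of_forall hw0)
    have hmem : ∀ k, MemLp (f k) 1 μ := fun k =>
      ⟨((hf k).mono_ac hac).aestronglyMeasurable, by rw [eLpNorm_weighted hw (hf k)]; exact hfin k⟩
    have hc : CauchySeq fun k => (hmem k).toLp (f k) := by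
      rw [EMetric.cauchySeq_iff]
      intro ε hε
      obtain ⟨ε', hε'0, hε'⟩ := exists_between hε
      obtain ⟨N, hN⟩ := hcau ε' hε'0
      refine ⟨N, fun k hk l hl => ?_⟩
      rw [Lp.edist_toLp_toLp]
      refine lt_of_le_of_lt ?_ hε'
      have h1 : f k - f l = fun x => f k x - f l x := rfl
      have h2 : AEMeasurable (fun x => f k x - f l x) (volume.restrict Q.set) :=
        (hf k).sub (hf l)
      rw [h1, eLpNorm_weighted hw h2]
      exact hN k l hk hl
    obtain ⟨G, hG⟩ := cauchySeq_tendsto_of_complete hc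
    have hGm : AEMeasurable (G : (Fin n → ℝ) → ℝ) (volume.restrict Q.set) :=
      (Lp.aestronglyMeasurable G).aemeasurable.mono_ac hac'
    refine ⟨G, hGm, ?_, ?_⟩
    · rw [← eLpNorm_weighted hw hGm]
      exact (Lp.memLp G).2
    · rw [tendsto_iff_edist_tendsto_0] at hG
      refine hG.congr fun k => ?_
      have h1 : edist ((hmem k).toLp (f k)) G = eLpNorm (fun x => f k x - G x) 1 μ := by
        conv_lhs => rw [← Lp.toLp_coeFn G (Lp.memLp G)]
        rw [Lp.edist_toLp_toLp]
        rfl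
      have h2 : AEMeasurable (fun x => f k x - G x) (volume.restrict Q.set) := (hf k).sub hGm
      rw [h1, eLpNorm_weighted hw h2]
  exists_pos := by
    refine ⟨fun _ => 1, aemeasurable_const, Eventually.of_forall fun _ => one_pos, ?_⟩
    simpa using hwi
  fatou f hf hmono hsup := by
    have hmono' : ∀ᵐ x ∂(volume.restrict Q.set), ∀ k, 0 ≤ f k x ∧ f k x ≤ f (k + 1) x :=
      ae_all_iff.2 hmono
    have hmono2 : ∀ᵐ x ∂(volume.restrict Q.set), Monotone fun k => f k x := by
      filter_upwards [hmono'] with x hx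
      exact monotone_nat_of_le_succ fun k => (hx k).2
    have hof : ∀ k, AEMeasurable (fun x => ENNReal.ofReal (f k x)) (volume.restrict Q.set) :=
      fun k => ENNReal.measurable_ofReal.comp_aemeasurable (hf k)
    have hwof : ∀ k, AEMeasurable (fun x => w x * ENNReal.ofReal (f k x))
        (volume.restrict Q.set) := fun k => hw.aemeasurable.mul (hof k)
    have hq : ∀ k, ∫⁻ x in Q.set, w x * ENNReal.ofReal |f k x| =
        ∫⁻ x in Q.set, w x * ENNReal.ofReal (f k x) := by
      intro k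
      refine lintegral_congr_ae ?_
      filter_upwards [hmono'] with x hx
      rw [abs_of_nonneg (hx k).1]
    have hsup2 : ∫⁻ x in Q.set, w x * ⨆ k, ENNReal.ofReal (f k x) =
        ⨆ k, ∫⁻ x in Q.set, w x * ENNReal.ofReal (f k x) := by
      rw [← lintegral_iSup' hwof]
      · refine lintegral_congr fun x => ?_
        rw [ENNReal.mul_iSup]
      · filter_upwards [hmono2] with x hx k l hkl
        exact mul_le_mul_right (ENNReal.ofReal_le_ofReal (hx hkl)) _
    simp_rw [hq] at hsup ⊢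
    rw [← hsup2] at hsup ⊢
    have hfin : ∀ᵐ x ∂(volume.restrict Q.set), (⨆ k, ENNReal.ofReal (f k x)) < ∞ := by
      have h1 : AEMeasurable (fun x => w x * ⨆ k, ENNReal.ofReal (f k x))
          (volume.restrict Q.set) := hw.aemeasurable.mul (AEMeasurable.iSup hof)
      filter_upwards [ae_lt_top' h1 hsup.ne] with x hx
      rw [lt_top_iff_ne_top]
      intro htop
      rw [htop, ENNReal.mul_top (hw0 x)] at hx
      exact lt_irrefl _ hx
    refine ⟨fun x => (⨆ k, ENNReal.ofReal (f k x)).toReal,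
      (AEMeasurable.iSup hof).ennreal_toReal, ?_, ?_⟩
    · filter_upwards [hmono2, hmono', hfin] with x hx hx' hxf
      have h1 : Tendsto (fun k => ENNReal.ofReal (f k x)) atTop
          (𝓝 (⨆ k, ENNReal.ofReal (f k x))) :=
        tendsto_atTop_iSup fun k l hkl => ENNReal.ofReal_le_ofReal (hx hkl)
      have h2 := (ENNReal.tendsto_toReal hxf.ne).comp h1
      refine h2.congr fun k => ?_
      exact ENNReal.toReal_ofReal (hx' k).1
    · refine lintegral_congr_ae ?_
      filter_upwards [hfin] with x hx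
      rw [abs_of_nonneg ENNReal.toReal_nonneg, ENNReal.ofReal_toReal hx.ne]

/-! ### the example -/

/-- `F t = |⌊t⌋|` if the fractional part of `t` is smaller than `1/2`, and `0` otherwise. -/
noncomputable def F (t : ℝ) : ℝ := if Int.fract t < 1 / 2 then |((⌊t⌋ : ℤ) : ℝ)| else 0

theorem F_measurable : Measurable F := by
  unfold F
  refine Measurable.ite ?_ ?_ measurable_const
  · exact measurableSet_lt measurable_fract measurable_const
  · have h1 : Measurable fun t : ℝ => ((⌊t⌋ : ℤ) : ℝ) :=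
      measurable_from_top.comp Int.measurable_floor
    exact h1.abs

theorem F_le (t : ℝ) : |F t| ≤ |t| + 1 := by
  unfold F
  split_ifs
  · rw [abs_abs]
    have h1 := Int.floor_le t
    have h2 := Int.lt_floor_add_one t
    rw [abs_le]
    have h3 := abs_le.1 (le_refl |t|)
    constructor <;> linarith [abs_nonneg t, neg_abs_le t, le_abs_self t]
  · rw [abs_zero]; positivity

/-- `F` is constant on half integer intervals. -/
theorem F_const (m : ℤ) : ∃ c : ℝ, ∀ t : ℝ, (m : ℝ) / 2 ≤ t → t < (m + 1) / 2 → F t = c := by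
  rcases Int.even_or_odd' m with ⟨k, rfl | rfl⟩
  · refine ⟨|(k : ℝ)|, fun t h1 h2 => ?_⟩
    push_cast at h1 h2
    have hf : ⌊t⌋ = k := by
      rw [Int.floor_eq_iff]
      constructor <;> linarith
    have hfr : Int.fract t < 1 / 2 := by
      unfold Int.fract
      rw [hf]
      linarith
    unfold F
    rw [if_pos hfr, hf]
  · refine ⟨0, fun t h1 h2 => ?_⟩
    push_cast at h1 h2
    have hf : ⌊t⌋ = k := by
      rw [Int.floor_eq_iff]
      constructor <;> linarith
    have hfr : ¬ Int.fract t < 1 / 2 := by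
      unfold Int.fract
      rw [hf]
      push Not
      linarith
    unfold F
    rw [if_neg hfr]

/-- Every interval has a large subset on which `F` is constant. -/
theorem F_level (a l : ℝ) (hl : 0 < l) :
    ∃ c : ℝ, ENNReal.ofReal (l / 4) ≤ volume ({t | F t = c} ∩ Set.Icc a (a + l)) := by
  have hmeas : ∀ c : ℝ, MeasurableSet {t | F t = c} := fun c =>
    F_measurable (measurableSet_singleton c)
  rcases lt_or_ge l 1 with h1 | h1
  · -- a short interval meets at most three pieces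
    set m : ℤ := ⌊2 * a⌋ with hm
    have hm1 := Int.floor_le (2 * a)
    have hm2 := Int.lt_floor_add_one (2 * a)
    rw [← hm] at hm1 hm2
    by_contra hcon
    push Not at hcon
    have hpiece : ∀ j : ℤ, volume (Set.Ico (((m + j : ℤ) : ℝ) / 2) ((((m + j : ℤ) : ℝ) + 1) / 2) ∩
        Set.Icc a (a + l)) < ENNReal.ofReal (l / 4) := by
      intro j
      obtain ⟨c, hc⟩ := F_const (m + j)
      refine lt_of_le_of_lt (measure_mono ?_) (hcon c)
      rintro t ⟨ht1, ht2⟩
      exact ⟨hc t ht1.1 ht1.2, ht2⟩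
    have hcov : Set.Icc a (a + l) ⊆
        ((Set.Ico (((m + 0 : ℤ) : ℝ) / 2) ((((m + 0 : ℤ) : ℝ) + 1) / 2) ∩ Set.Icc a (a + l)) ∪
        (Set.Ico (((m + 1 : ℤ) : ℝ) / 2) ((((m + 1 : ℤ) : ℝ) + 1) / 2) ∩ Set.Icc a (a + l))) ∪
        (Set.Ico (((m + 2 : ℤ) : ℝ) / 2) ((((m + 2 : ℤ) : ℝ) + 1) / 2) ∩ Set.Icc a (a + l)) := by
      intro t ht
      have ht' := ht
      obtain ⟨ht1, ht2⟩ := ht
      push_cast
      rcases lt_or_ge t (((m : ℝ) + 1) / 2) with h | h
      · left; left
        refine ⟨⟨by linarith, by linarith⟩, ht'⟩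
      · rcases lt_or_ge t (((m : ℝ) + 2) / 2) with h' | h'
        · left; right
          refine ⟨⟨by linarith, by linarith⟩, ht'⟩
        · right
          refine ⟨⟨by linarith, by linarith⟩, ht'⟩
    have h2 := (measure_mono (μ := volume) hcov).trans ((measure_union_le _ _).trans
      (add_le_add (measure_union_le _ _) le_rfl))
    rw [Real.volume_Icc] at h2
    have h3 : ENNReal.ofReal (a + l - a) < ENNReal.ofReal (l / 4) + ENNReal.ofReal (l / 4) +
        ENNReal.ofReal (l / 4) :=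
      lt_of_le_of_lt h2 (ENNReal.add_lt_add (ENNReal.add_lt_add (hpiece 0) (hpiece 1)) (hpiece 2))
    rw [← ENNReal.ofReal_add (by positivity) (by positivity),
      ← ENNReal.ofReal_add (by positivity) (by positivity),
      ENNReal.ofReal_lt_ofReal_iff (by positivity)] at h3
    linarith
  · -- a long interval: the zero set is large, by translation
    refine ⟨0, ?_⟩
    set Z : Set ℝ := {t | F t = 0} ∩ Set.Icc a (a + l) with hZ
    set S : Set ℝ := {t | ¬ F t = 0} ∩ Set.Icc a (a + l - 1 / 2) with hS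
    have hsub : (fun t : ℝ => (1 / 2 : ℝ) + t) '' S ⊆ Z := by
      rintro _ ⟨t, ⟨ht1, ht2⟩, rfl⟩
      refine ⟨?_, by simp only; linarith [ht2.1], by simp only; linarith [ht2.2]⟩
      have hfr : Int.fract t < 1 / 2 := by
        by_contra h
        apply ht1
        unfold F
        rw [if_neg h]
      have h0 := Int.fract_nonneg t
      have hfl : ⌊(1 / 2 : ℝ) + t⌋ = ⌊t⌋ := by
        rw [Int.floor_eq_iff]
        unfold Int.fract at hfr h0
        constructor <;> linarith
      have hfr' : ¬ Int.fract ((1 / 2 : ℝ) + t) < 1 / 2 := by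
        unfold Int.fract
        rw [hfl]
        unfold Int.fract at h0
        push Not
        linarith
      show F ((1 / 2 : ℝ) + t) = 0
      unfold F
      rw [if_neg hfr']
    have hvol : volume S ≤ volume Z := by
      refine le_trans (le_of_eq ?_) (measure_mono hsub)
      rw [Set.image_add_left, measure_preimage_add]
    have hcov : Set.Icc a (a + l - 1 / 2) ⊆ Z ∪ S := by
      intro t ht
      by_cases h : F t = 0
      · exact Or.inl ⟨h, ht.1, by linarith [ht.2]⟩
      · exact Or.inr ⟨h, ht⟩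
    have h2 := (measure_mono (μ := volume) hcov).trans
      ((measure_union_le _ _).trans (add_le_add le_rfl hvol))
    rw [Real.volume_Icc] at h2
    have hZtop : volume Z ≠ ∞ := by
      refine ne_top_of_le_ne_top ?_ (measure_mono Set.inter_subset_right)
      rw [Real.volume_Icc]
      exact ENNReal.ofReal_ne_top
    rw [← ENNReal.ofReal_toReal hZtop] at h2 ⊢
    rw [← ENNReal.ofReal_add ENNReal.toReal_nonneg ENNReal.toReal_nonneg,
      ENNReal.ofReal_le_ofReal_iff (by positivity)] at h2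
    apply ENNReal.ofReal_le_ofReal
    linarith

variable {n : ℕ}

/-- The function `f(x) = F(x_0)` on `ℝ^(n+1)`. -/
noncomputable def ff (x : Fin (n + 1) → ℝ) : ℝ := F (x 0)

theorem ff_measurable : Measurable (ff (n := n)) := F_measurable.comp (measurable_pi_apply 0)

/-- Every cube has a large subset on which `f` is constant. -/
theorem ff_level (Q : Cube (n + 1)) :
    ∃ c : ℝ, ENNReal.ofReal (1 / 4) * volume Q.set ≤ volume ({x | ff x = c} ∩ Q.set) := by
  obtain ⟨c, hc⟩ := F_level (Q.corner 0) Q.side Q.side_pos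
  refine ⟨c, ?_⟩
  have hset : {x | ff x = c} ∩ Q.set = Set.pi Set.univ (Fin.cons
      ({t | F t = c} ∩ Set.Icc (Q.corner 0) (Q.corner 0 + Q.side))
      (fun i : Fin n => Set.Icc (Q.corner i.succ) (Q.corner i.succ + Q.side)) :
      Fin (n + 1) → Set ℝ) := by
    ext x
    simp only [Set.mem_inter_iff, Set.mem_ofPred_eq, Set.mem_pi, Set.mem_univ, forall_true_left,
      Fin.forall_fin_succ, Fin.cons_zero, Fin.cons_succ, Cube.set, Set.mem_Icc, Pi.le_def, ff]
    constructor
    · rintro ⟨h1, ⟨h2, h3⟩, h4, h5⟩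
      exact ⟨⟨h1, h2, h4⟩, fun i => ⟨h3 i, h5 i⟩⟩
    · rintro ⟨⟨h1, h2, h4⟩, h3⟩
      exact ⟨h1, ⟨h2, fun i => (h3 i).1⟩, h4, fun i => (h3 i).2⟩
  rw [hset, volume_pi_pi, Fin.prod_univ_succ]
  simp only [Fin.cons_zero, Fin.cons_succ, Real.volume_Icc, add_sub_cancel_left,
    Finset.prod_const, Finset.card_univ, Fintype.card_fin]
  rw [volume_cube, pow_succ, mul_comm (ENNReal.ofReal Q.side ^ n), ← mul_assoc]
  refine mul_le_mul_left (le_trans (le_of_eq ?_) hc) _
  rw [← ENNReal.ofReal_mul (by norm_num)]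
  congr 1
  ring

/-- The constant `c_Q`. -/
noncomputable def cc (Q : Cube (n + 1)) : ℝ := (ff_level Q).choose

theorem cc_spec (Q : Cube (n + 1)) :
    ENNReal.ofReal (1 / 4) * volume Q.set ≤ volume ({x | ff x = cc Q} ∩ Q.set) :=
  (ff_level Q).choose_spec

/-- The weight `1 / (|Q| (1 + |f - c_Q|))`. -/
noncomputable def wt (Q : Cube (n + 1)) (x : Fin (n + 1) → ℝ) : ℝ≥0∞ :=
  (volume Q.set)⁻¹ * ENNReal.ofReal (1 / (1 + |ff x - cc Q|))

theorem wt_measurable (Q : Cube (n + 1)) : Measurable (wt Q) := by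
  unfold wt
  refine Measurable.const_mul (ENNReal.measurable_ofReal.comp ?_) _
  exact measurable_const.div (measurable_const.add (ff_measurable.sub measurable_const).abs)

theorem wt_ne_zero (Q : Cube (n + 1)) (x : Fin (n + 1) → ℝ) : wt Q x ≠ 0 := by
  unfold wt
  refine mul_ne_zero (ENNReal.inv_ne_zero.2 (volume_cube_ne_top Q)) ?_
  have : 0 < 1 / (1 + |ff x - cc Q|) := by positivity
  simpa using this

theorem wt_le (Q : Cube (n + 1)) (x : Fin (n + 1) → ℝ) : wt Q x ≤ (volume Q.set)⁻¹ := by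
  unfold wt
  refine mul_le_of_le_one_right zero_le ?_
  rw [← ENNReal.ofReal_one]
  refine ENNReal.ofReal_le_ofReal ?_
  rw [div_le_one (by positivity)]
  linarith [abs_nonneg (ff x - cc Q)]

theorem lint_wt_le (Q : Cube (n + 1)) : ∫⁻ x in Q.set, wt Q x ≤ 1 := by
  calc ∫⁻ x in Q.set, wt Q x ≤ ∫⁻ x in Q.set, (volume Q.set)⁻¹ := lintegral_mono (wt_le Q)
    _ = (volume Q.set)⁻¹ * volume Q.set := by rw [lintegral_const, Measure.restrict_apply_univ]
    _ ≤ 1 := ENNReal.inv_mul_le_one _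

/-- The family `X`. -/
noncomputable def XX (Q : Cube (n + 1)) : QBFS Q :=
  weighted Q (wt Q) (wt_measurable Q) (wt_ne_zero Q)
    (lt_of_le_of_lt (lint_wt_le Q) ENNReal.one_lt_top)

theorem XX_norm (Q : Cube (n + 1)) (f : (Fin (n + 1) → ℝ) → ℝ) :
    (XX Q).qnorm f = ∫⁻ x in Q.set, wt Q x * ENNReal.ofReal |f x| := rfl

theorem normalized_XX : Normalized (XX (n := n)) := by
  refine ⟨1 / 4, 1, by norm_num, fun Q => ⟨?_, ?_⟩⟩
  · rw [XX_norm]
    have h1 : ∫⁻ x in {x | ff x = cc Q} ∩ Q.set, (volume Q.set)⁻¹ ≤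
        ∫⁻ x in Q.set, wt Q x * ENNReal.ofReal |Q.set.indicator (fun _ => (1 : ℝ)) x| := by
      refine le_trans ?_ (lintegral_mono_set (Set.inter_subset_right (s := {x | ff x = cc Q})))
      refine setLIntegral_mono' ((ff_measurable (measurableSet_singleton _)).inter
        (measurableSet_cube Q)) ?_
      rintro x ⟨hx1, hx2⟩
      rw [Set.indicator_of_mem hx2]
      unfold wt
      rw [show ff x = cc Q from hx1]
      simp
    refine le_trans ?_ h1
    rw [lintegral_const, Measure.restrict_apply_univ]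
    calc ((1 / 4 : ℝ≥0) : ℝ≥0∞) = (volume Q.set)⁻¹ * (ENNReal.ofReal (1 / 4) * volume Q.set) := by
          rw [mul_comm (ENNReal.ofReal _), ← mul_assoc,
            ENNReal.inv_mul_cancel (volume_cube_pos Q) (volume_cube_ne_top Q), one_mul]
          rw [ENNReal.ofReal]
          congr 1
          ext
          simp
      _ ≤ _ := mul_le_mul_right (cc_spec Q) _
  · rw [XX_norm]
    refine le_trans (lintegral_mono fun x => ?_) (lint_wt_le Q)
    refine mul_le_of_le_one_right zero_le ?_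
    by_cases hx : x ∈ Q.set
    · rw [Set.indicator_of_mem hx]; simp
    · rw [Set.indicator_of_notMem hx]; simp

theorem embeds_XX : EmbedsInBMOX (XX (n := n)) := by
  refine ⟨1, fun f _ _ => ?_⟩
  rw [ENNReal.coe_one, one_mul]
  refine iSup_mono fun Q => ?_
  rw [XX_norm, ← lintegral_const_mul' _ _ (ENNReal.inv_ne_top.2 (volume_cube_pos Q))]
  refine lintegral_mono fun x => ?_
  exact mul_le_mul_left (wt_le Q x) _

theorem star_XX : bmoStarNorm (XX (n := n)) ff ≤ 1 := by
  refine iSup_le fun Q => ?_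
  refine (iInf_le _ (cc Q)).trans ?_
  rw [XX_norm]
  calc ∫⁻ x in Q.set, wt Q x * ENNReal.ofReal |ff x - cc Q|
      ≤ ∫⁻ x in Q.set, (volume Q.set)⁻¹ := by
        refine lintegral_mono fun x => ?_
        unfold wt
        rw [mul_assoc, ← ENNReal.ofReal_mul (by positivity)]
        refine mul_le_of_le_one_right zero_le ?_
        rw [← ENNReal.ofReal_one]
        refine ENNReal.ofReal_le_ofReal ?_
        rw [div_mul_eq_mul_div, one_mul, div_le_one (by positivity)]
        linarith [abs_nonneg (ff x - cc Q)]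
    _ = (volume Q.set)⁻¹ * volume Q.set := by rw [lintegral_const, Measure.restrict_apply_univ]
    _ ≤ 1 := ENNReal.inv_mul_le_one _

/-- Subsets of the unit cube at height `k`. -/
theorem half_cube (k : ℕ) (a b : ℝ) (h0 : 0 ≤ a) (hb : b ≤ 1) :
    volume ({x : Fin (n + 1) → ℝ | (k : ℝ) + a < x 0 ∧ x 0 < k + b} ∩
      (⟨Fin.cons (k : ℝ) fun _ => 0, 1, one_pos⟩ : Cube (n + 1)).set) =
      ENNReal.ofReal (b - a) := by
  have hset : {x : Fin (n + 1) → ℝ | (k : ℝ) + a < x 0 ∧ x 0 < k + b} ∩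
      (⟨Fin.cons (k : ℝ) fun _ => 0, 1, one_pos⟩ : Cube (n + 1)).set =
      Set.pi Set.univ (Fin.cons (Set.Ioo ((k : ℝ) + a) (k + b))
      (fun _ : Fin n => Set.Icc (0 : ℝ) 1) : Fin (n + 1) → Set ℝ) := by
    ext x
    simp only [Set.mem_inter_iff, Set.mem_ofPred_eq, Set.mem_pi, Set.mem_univ, forall_true_left,
      Fin.forall_fin_succ, Fin.cons_zero, Fin.cons_succ, Cube.set, Set.mem_Icc, Pi.le_def,
      Set.mem_Ioo]
    constructor
    · rintro ⟨h1, ⟨h2, h3⟩, h4, h5⟩
      exact ⟨h1, fun i => ⟨h3 i, by simpa using h5 i⟩⟩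
    · rintro ⟨h1, h2⟩
      exact ⟨h1, ⟨by linarith [h1.1], fun i => (h2 i).1⟩, by linarith [h1.2],
        fun i => by simpa using (h2 i).2⟩
  rw [hset, volume_pi_pi, Fin.prod_univ_succ]
  simp

theorem bmo_ge (k : ℕ) : ENNReal.ofReal ((k : ℝ) / 2) ≤ bmoNorm (ff (n := n)) := by
  set Q : Cube (n + 1) := ⟨Fin.cons (k : ℝ) fun _ => 0, 1, one_pos⟩ with hQ
  refine le_trans ?_ (le_iSup _ Q)
  have hvol : volume Q.set = 1 := by rw [volume_cube]; simp [hQ]
  rw [hvol, inv_one, one_mul]
  set c := mean Q ff with hc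
  set A : Set (Fin (n + 1) → ℝ) := {x | (k : ℝ) + 0 < x 0 ∧ x 0 < k + 1 / 2} ∩ Q.set with hA
  set B : Set (Fin (n + 1) → ℝ) := {x | (k : ℝ) + 1 / 2 < x 0 ∧ x 0 < k + 1} ∩ Q.set with hB
  have hAv : volume A = ENNReal.ofReal (1 / 2) := by
    rw [hA, hQ, half_cube k 0 (1 / 2) le_rfl (by norm_num), sub_zero]
  have hBv : volume B = ENNReal.ofReal (1 / 2) := by
    rw [hB, hQ, half_cube k (1 / 2) 1 (by norm_num) le_rfl]
    norm_num
  have hopen : ∀ a b : ℝ, MeasurableSet {x : Fin (n + 1) → ℝ | a < x 0 ∧ x 0 < b} := fun a b =>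
    (measurableSet_lt measurable_const (measurable_pi_apply 0)).inter
      (measurableSet_lt (measurable_pi_apply 0) measurable_const)
  have hAm : MeasurableSet A := (hopen _ _).inter (measurableSet_cube Q)
  have hBm : MeasurableSet B := (hopen _ _).inter (measurableSet_cube Q)
  have hdisj : Disjoint A B := by
    rw [Set.disjoint_left]
    rintro x ⟨⟨_, h1⟩, _⟩ ⟨⟨h2, _⟩, _⟩
    linarith
  have hsub : A ∪ B ⊆ Q.set := Set.union_subset Set.inter_subset_right Set.inter_subset_right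
  have hfA : ∀ x ∈ A, ff x = k := by
    rintro x ⟨⟨h1, h2⟩, -⟩
    have hfl : ⌊x 0⌋ = (k : ℤ) := by
      rw [Int.floor_eq_iff]
      push_cast
      constructor <;> linarith
    have hfr : Int.fract (x 0) < 1 / 2 := by
      unfold Int.fract
      rw [hfl]
      push_cast
      linarith
    unfold ff F
    rw [if_pos hfr, hfl]
    simp
  have hfB : ∀ x ∈ B, ff x = 0 := by
    rintro x ⟨⟨h1, h2⟩, -⟩
    have hfl : ⌊x 0⌋ = (k : ℤ) := by
      rw [Int.floor_eq_iff]
      push_cast
      constructor <;> linarith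
    have hfr : ¬ Int.fract (x 0) < 1 / 2 := by
      unfold Int.fract
      rw [hfl]
      push_cast
      push Not
      linarith
    unfold ff F
    rw [if_neg hfr]
  calc ENNReal.ofReal ((k : ℝ) / 2)
      ≤ ENNReal.ofReal |(k : ℝ) - c| * volume A + ENNReal.ofReal |0 - c| * volume B := by
        rw [hAv, hBv, ← ENNReal.ofReal_mul (abs_nonneg _), ← ENNReal.ofReal_mul (abs_nonneg _),
          ← ENNReal.ofReal_add (by positivity) (by positivity)]
        refine ENNReal.ofReal_le_ofReal ?_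
        have h1 : (k : ℝ) ≤ |(k : ℝ) - c| + |0 - c| := by
          have := le_abs_self ((k : ℝ) - c)
          have := neg_le_abs (0 - c)
          linarith
        linarith
    _ = ∫⁻ x in A ∪ B, ENNReal.ofReal |ff x - c| := by
        rw [lintegral_union hBm hdisj]
        congr 1
        · rw [setLIntegral_congr_fun hAm (fun x hx => by
            show ENNReal.ofReal |ff x - c| = ENNReal.ofReal |(k : ℝ) - c|
            rw [hfA x hx]), lintegral_const, Measure.restrict_apply_univ]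
        · rw [setLIntegral_congr_fun hBm (fun x hx => by
            show ENNReal.ofReal |ff x - c| = ENNReal.ofReal |0 - c|
            rw [hfB x hx]), lintegral_const, Measure.restrict_apply_univ]
    _ ≤ ∫⁻ x in Q.set, ENNReal.ofReal |ff x - c| := lintegral_mono_set hsub

/-- **`BMO ↪ BMO_X` does not imply `BMO*_X ↪ BMO`**, in every dimension `n ≥ 1`. -/
theorem result (n : ℕ) (hn : 1 ≤ n) :
    ∃ X : ∀ Q : Cube n, QBFS Q, Normalized X ∧ EmbedsInBMOX X ∧ ¬ StarEmbedsInBMO X := by
  obtain ⟨n, rfl⟩ : ∃ m, n = m + 1 := ⟨n - 1, by omega⟩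
  refine ⟨XX, normalized_XX, embeds_XX, ?_⟩
  rintro ⟨C, hC⟩
  have h1 := (hC ff ff_measurable.aemeasurable
    (lt_of_le_of_lt star_XX ENNReal.one_lt_top)).2
  have h2 : bmoNorm (ff (n := n)) ≤ C :=
    h1.trans ((mul_le_mul_right star_XX _).trans (le_of_eq (mul_one _)))
  obtain ⟨k, hk⟩ := exists_nat_gt (2 * (C : ℝ))
  have h3 := (bmo_ge (n := n) k).trans h2
  rw [ENNReal.ofReal_le_iff_le_toReal ENNReal.coe_ne_top, ENNReal.coe_toReal] at h3
  linarith

end Pool.Agent.Results.MP_ea8870_an.StarEmbeddingFails
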